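import Pool.Agent.Y843.AC.Lin
import Pool.Agent.Y677.KU.RealI

/-!
# Progressions of numbers with at most three prime factors between `x` and `x + √x`: their exact order

(helper751, with the library `Y843.AC` of helper843 and helpers 71, 872, 363, and the lower bound for almost
primes in short intervals of helper677, `Y677.KU`.)

EVERY interval `(x, x + y]`, `x ^ θ ≤ y ≤ x`, `θ > 7/15`, in particular `(x, x + √x]`, contains
`≍ y D / log ^ k x` progressions of `k` numbers with at most three prime factors and differences at most `D`,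
for all `D` between a power of `log x` and `y`.  For `θ > 0` arbitrary: every dense set of primes in such an
interval has the expected order of progressions, and conversely; the primes of the intervals of a family have
the right order if and only if the number of their progressions has.
-/

set_option autoImplicit false

namespace Pool.Agent.Results.MP_b8a134_nt.ProgressionCounts

open Finset

/-- The primes `p` with `x < p ≤ x + y`. -/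
def P (x y : ℕ) : Finset ℕ := (Ioc x (x + y)).filter Nat.Prime

/-- The integers `n` without a prime factor `≤ n ^ (1/s)`; for `s ≥ 2` all primes are in `R s`. -/
def R (s : ℕ) : Set ℕ := {n | ∀ p : ℕ, p.Prime → (p : ℝ) ≤ (n : ℝ) ^ (1 / (s : ℝ)) → ¬ p ∣ n}

open Classical in
/-- The integers `x < n ≤ x + y` with at most `r` prime factors, counted with multiplicity, all of them larger
than `n ^ (1/s)`. -/
noncomputable def A (r s x y : ℕ) : Finset ℕ :=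
  (Ioc x (x + y)).filter (fun n => n ∈ R s ∧ n.primeFactorsList.length ≤ r)

open Classical in
/-- The number of the progressions `b, b + d, …, b + (k - 1) d` in `S` with `1 ≤ d ≤ D`. -/
noncomputable def AP (k D : ℕ) (S : Finset ℕ) : ℕ :=
  ((S ×ˢ Icc 1 D).filter (fun q => ∀ j < k, q.1 + j * q.2 ∈ S)).card

open Classical in
/-- The elements of `S` which lie in no progression of `k` elements of `S` with a difference in `[1, D]`. -/
noncomputable def outside (k : ℕ) (D : ℝ) (S : Finset ℕ) : Finset ℕ :=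
  S.filter (fun n => ¬ ∃ b d : ℕ, 1 ≤ d ∧ (d : ℝ) ≤ D ∧ (∀ j < k, b + j * d ∈ S) ∧ ∃ j < k, n = b + j * d)

lemma AP_eq (k D : ℕ) (S : Finset ℕ) : AP k D S = (Pool.Agent.Y843.AC.APs k D S).card := rfl

/-- the class `0` -/
def Z0 (p : ℕ) : Finset ℕ := (range p).filter (fun c => c = 0)

lemma mem_Z0 {p : ℕ} (hp : p.Prime) (n : ℕ) : n % p ∈ Z0 p ↔ p ∣ n := by
  unfold Z0
  rw [mem_filter, mem_range]
  constructor
  · rintro ⟨_, h⟩
    exact Nat.dvd_of_mod_eq_zero h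
  · intro h
    exact ⟨Nat.mod_lt _ hp.pos, Nat.mod_eq_zero_of_dvd h⟩

lemma card_Z0 {p : ℕ} (hp : p.Prime) : (Z0 p).card = 1 := by
  have h : Z0 p = {0} := by
    ext c
    unfold Z0
    rw [mem_filter, mem_range, mem_singleton]
    constructor
    · exact fun h => h.2
    · intro h
      exact ⟨by rw [h]; exact hp.pos, h⟩
  rw [h, card_singleton]

theorem linZ0 : Pool.Agent.Y843.QD.Lin Z0 := by
  refine ⟨fun p hp => by rw [card_Z0 hp]; norm_num, fun p hp => by rw [card_Z0 hp]; exact hp.one_lt,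
    fun p c hc => ?_, 1, 3, one_pos, le_rfl, fun A hA N _ => ?_⟩
  · unfold Z0 at hc
    rw [mem_filter, mem_range] at hc
    exact hc.1
  · have h : ∑ p ∈ (Ioc A N).filter Nat.Prime, ((Z0 p).card : ℝ) / p =
        ∑ p ∈ (Ioc A N).filter Nat.Prime, (1 : ℝ) / p := by
      apply sum_congr rfl
      intro p hp
      rw [card_Z0 (mem_filter.1 hp).2, Nat.cast_one]
    rw [h, sub_self, abs_zero]
    have hA' : (3 : ℝ) ≤ A := by exact_mod_cast hA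
    have h2 : 0 < Real.log ((A : ℝ) - 1) := Real.log_pos (by linarith)
    positivity

theorem fc : Pool.Agent.Y843.AC.FC 2 1 Z0 := Pool.Agent.Y843.AC.FC_lin linZ0

lemma conv (Y D L : ℝ) (k : ℕ) : Y * D * (1 / L ^ 1) ^ k = Y * D / L ^ k := by
  rw [pow_one, div_pow, one_pow, mul_one_div]

lemma conv1 (Y L : ℝ) : Y * (1 / L ^ 1) = Y / L := by
  rw [pow_one, mul_one_div]

/-- the elements of `R s` behind `x` have no small prime factor -/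
lemma small {x y s : ℕ} {S : Finset ℕ} (hS : S ⊆ Ioc x (x + y)) (hR : ∀ n ∈ S, n ∈ R s) :
    ∀ n ∈ S, ∀ p : ℕ, p.Prime → (p : ℝ) ≤ (x : ℝ) ^ (1 / (s : ℝ)) → n % p ∉ Z0 p := by
  intro n hn p hp hpx hcon
  refine hR n hn p hp (hpx.trans ?_) ((mem_Z0 hp n).1 hcon)
  apply Real.rpow_le_rpow (Nat.cast_nonneg _) _ (by positivity)
  exact_mod_cast (mem_Ioc.1 (hS hn)).1.le

/-- upper bound, dense sets and the converse -/
theorem sets (k s : ℕ) (hk : 1 ≤ k) (hs : 1 ≤ s) {θ : ℝ} (hθ : 0 < θ) :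
    (∃ C : ℝ, 0 < C ∧ ∃ B X₀ : ℕ, ∀ x : ℕ, X₀ ≤ x → ∀ y D : ℕ, (x : ℝ) ^ θ ≤ y → y ≤ x →
      Real.log x ^ B ≤ D → ∀ S : Finset ℕ, S ⊆ Ioc x (x + y) → (∀ n ∈ S, n ∈ R s) →
      (AP k D S : ℝ) ≤ C * (y * D / Real.log x ^ k)) ∧
    (∀ δ : ℝ, 0 < δ → ∃ c : ℝ, 0 < c ∧ ∃ B X₀ : ℕ, ∀ x : ℕ, X₀ ≤ x → ∀ y D : ℕ,
      (x : ℝ) ^ θ ≤ y → y ≤ x → Real.log x ^ B ≤ D → D ≤ y → ∀ S : Finset ℕ, S ⊆ Ioc x (x + y) →
      (∀ n ∈ S, n ∈ R s) →
      (δ * (y / Real.log x) ≤ S.card → c * (y * D / Real.log x ^ k) ≤ (AP k D S : ℝ)) ∧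
      (δ * (y * D / Real.log x ^ k) ≤ (AP k D S : ℝ) → c * (y / Real.log x) ≤ S.card)) := by
  obtain ⟨⟨C, hC, B, X₀, h1⟩, h2⟩ := Pool.Agent.Y843.AC.fixed fc k s hk hs hθ
  refine ⟨⟨C, hC, B, X₀, ?_⟩, fun δ hδ => ?_⟩
  · intro x hx y D hy hyx hD S hS hR
    have h := h1 x hx x y D hy hyx hD S hS (small hS hR)
    rw [conv] at h
    exact h
  · obtain ⟨c, hc, B, X₀, h3⟩ := h2 δ hδ
    refine ⟨c, hc, B, X₀, ?_⟩
    intro x hx y D hy hyx hD hDy S hS hR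
    have h := h3 x hx x y D hy hyx hD hDy S hS (small hS hR)
    rw [conv, conv1] at h
    exact h

theorem big (B : ℕ) (θ : ℝ) (hθ : 0 < θ) : ∃ n₀ : ℕ, ∀ n : ℕ, n₀ ≤ n → Real.log n ^ B ≤ (n : ℝ) ^ θ := by
  have h1 : ∀ᶠ x : ℝ in Filter.atTop, Real.log x ^ B ≤ x ^ θ := by
    have h2 := (isLittleO_log_rpow_rpow_atTop (B : ℝ) hθ).bound (show (0 : ℝ) < 1 by norm_num)
    filter_upwards [h2, Filter.eventually_ge_atTop 1] with x hx hx1
    have hl : 0 ≤ Real.log x := Real.log_nonneg hx1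
    rw [one_mul, Real.norm_of_nonneg (Real.rpow_nonneg hl _),
      Real.norm_of_nonneg (Real.rpow_nonneg (by linarith) _), Real.rpow_natCast] at hx
    exact hx
  have h3 := (tendsto_natCast_atTop_atTop (R := ℝ)).eventually h1
  rw [Filter.eventually_atTop] at h3
  exact h3

/-- all but few elements are in progressions -/
theorem her (k s : ℕ) (hk : 1 ≤ k) (hs : 1 ≤ s) {θ : ℝ} (hθ : 0 < θ) (δ : ℝ) (hδ : 0 < δ) :
    ∃ B X₀ : ℕ, ∀ x : ℕ, X₀ ≤ x → ∀ y : ℕ, (x : ℝ) ^ θ ≤ y → y ≤ x → ∀ S : Finset ℕ,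
      S ⊆ Ioc x (x + y) → (∀ n ∈ S, n ∈ R s) →
      ((outside k (Real.log x ^ B) S).card : ℝ) ≤ δ * (y / Real.log x) := by
  classical
  obtain ⟨c, hc, B, n₁, h1⟩ := (sets k s hk hs hθ).2 δ hδ
  obtain ⟨n₂, h2⟩ := big (B + 1) θ hθ
  have e3 := (tendsto_natCast_atTop_atTop (R := ℝ)).eventually
    (Real.tendsto_log_atTop.eventually (Filter.eventually_ge_atTop (2 : ℝ)))
  rw [Filter.eventually_atTop] at e3
  obtain ⟨n₃, h3⟩ := e3
  refine ⟨B + 1, max (max n₁ n₂) (max n₃ 3), ?_⟩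
  intro x hx y hy hyx S hS hR
  have g1 : Real.log x ^ (B + 1) ≤ (y : ℝ) := (h2 x (by omega)).trans hy
  have g2 : 2 ≤ Real.log x := h3 x (by omega)
  have hlB : 1 ≤ Real.log x ^ B := one_le_pow₀ (by linarith)
  obtain ⟨D, hD⟩ : ∃ D : ℕ, D = ⌈Real.log x ^ B⌉₊ := ⟨_, rfl⟩
  have hD1 : Real.log x ^ B ≤ D := by rw [hD]; exact Nat.le_ceil _
  have hD2 : (D : ℝ) ≤ Real.log x ^ (B + 1) := by
    have h3 : (D : ℝ) < Real.log x ^ B + 1 := by rw [hD]; exact Nat.ceil_lt_add_one (by linarith)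
    rw [pow_succ]
    nlinarith
  have hD0 : (0 : ℝ) < D := by linarith
  have hDY : D ≤ y := by exact_mod_cast hD2.trans g1
  obtain ⟨S', hS'⟩ : ∃ S', S' = outside k (Real.log x ^ (B + 1)) S := ⟨_, rfl⟩
  have hsub : S' ⊆ S := by
    rw [hS']
    unfold outside
    exact filter_subset _ _
  have hAP : AP k D S' = 0 := by
    unfold AP
    rw [card_eq_zero, filter_eq_empty_iff]
    intro q hq hcon
    rw [mem_product, mem_Icc] at hq
    have h4 := hq.1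
    rw [hS'] at h4
    unfold outside at h4
    rw [mem_filter] at h4
    apply h4.2
    refine ⟨q.1, q.2, hq.2.1, ?_, fun j hj => hsub (hcon j hj), 0, by omega, by omega⟩
    refine le_trans ?_ hD2
    exact_mod_cast hq.2.2
  rw [← hS']
  by_contra hcon
  rw [not_le] at hcon
  have h5 := (h1 x (by omega) y D hy hyx hD1 hDY S' (hsub.trans hS) (fun n hn => hR n (hsub hn))).1 hcon.le
  rw [hAP] at h5
  have h6 : (0 : ℝ) < y := by linarith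
  have h7 : 0 < Real.log x := by linarith
  have h8 : 0 < c * ((y : ℝ) * D / Real.log x ^ k) := by positivity
  rw [Nat.cast_zero] at h5
  linarith

theorem prime_R {u : ℕ} (hu : 2 ≤ u) {n : ℕ} (hn : n.Prime) : n ∈ R u := by
  intro p hp hpn hd
  have h1 := (Nat.prime_dvd_prime_iff_eq hp hn).1 hd
  rw [h1] at hpn
  have hn1 : (1 : ℝ) < n := by exact_mod_cast hn.one_lt
  have h2 : (n : ℝ) ^ (1 / (u : ℝ)) < (n : ℝ) ^ (1 : ℝ) := by
    apply Real.rpow_lt_rpow_of_exponent_lt hn1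
    have hu0 : (0 : ℝ) < u := by exact_mod_cast (show 0 < u by omega)
    rw [div_lt_one hu0]
    exact_mod_cast (show 1 < u by omega)
  rw [Real.rpow_one] at h2
  linarith

lemma P_sub (x y : ℕ) : P x y ⊆ Ioc x (x + y) := filter_subset _ _

lemma P_R (x y : ℕ) : ∀ n ∈ P x y, n ∈ R 2 := fun _ hn => prime_R le_rfl (mem_filter.1 hn).2

lemma N_le (T : Set ℕ) (F : Finset ℕ) (a b : ℕ) (h : ∀ n, a < n → n ≤ b → n ∈ T → n ∈ F) :
    Pool.Agent.TH977.PW.N T a b ≤ F.card := by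
  classical
  unfold Pool.Agent.TH977.PW.N
  apply card_le_card
  intro n hn
  rw [mem_filter, mem_Ioc] at hn
  exact h n hn.1.1 hn.1.2 hn.2

/-- the numbers with few prime factors in every interval -/
theorem few (r s : ℕ) (θ : ℝ) (hθ : θ ≤ 1) (g1 : 4 < θ * (3 * r + 1)) (g2 : 1 < θ * r - (r - 1) / s)
    (g3 : 2 < θ * s) (k : ℕ) (hk : 1 ≤ k) : ∃ c C : ℝ, 0 < c ∧ 0 < C ∧ ∃ B X₀ : ℕ, ∀ x : ℕ, X₀ ≤ x →
    ∀ y D : ℕ, (x : ℝ) ^ θ ≤ y → y ≤ x → Real.log x ^ B ≤ D → D ≤ y →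
      c * (y * D / Real.log x ^ k) ≤ AP k D (A r s x y) ∧
        (AP k D (A r s x y) : ℝ) ≤ C * (y * D / Real.log x ^ k) := by
  classical
  have hθ0 : 0 < θ := by
    by_contra h
    have h1 : (0 : ℝ) ≤ 3 * r + 1 := by positivity
    nlinarith
  have hs : 1 ≤ s := by
    by_contra h
    have h1 : s = 0 := by omega
    rw [h1, Nat.cast_zero, mul_zero] at g3
    linarith
  obtain ⟨κ, hκ, hev⟩ := Pool.Agent.Y677.KU.one_lower r s θ hθ0 hθ g1 g2 g3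
  obtain ⟨n₁, h1⟩ := Filter.eventually_atTop.1 hev
  obtain ⟨⟨C, hC, B, n₂, h2⟩, hdn⟩ := sets k s hk hs hθ0
  obtain ⟨c, hc, B', n₃, h3⟩ := hdn κ hκ
  refine ⟨c, C, hc, hC, max B B', max (max n₁ n₂) (max n₃ 3), ?_⟩
  intro x hx y D hy hyx hD hDy
  have hl := Pool.Agent.Y843.AC.log_one (show 3 ≤ x by omega)
  have hsub : A r s x y ⊆ Ioc x (x + y) := by
    unfold A
    exact filter_subset _ _
  have hR : ∀ n ∈ A r s x y, n ∈ R s := by
    intro n hn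
    unfold A at hn
    exact (mem_filter.1 hn).2.1
  have h4 := h1 x (by omega) y hy hyx
  have h5 : κ * (y / Real.log x) ≤ (A r s x y).card := by
    rw [← mul_div_assoc]
    refine h4.trans (Nat.cast_le.2 (N_le _ _ _ _ fun n h6 h7 h8 => ?_))
    unfold A
    rw [mem_filter, mem_Ioc]
    refine ⟨⟨h6, h7⟩, fun p hp hpn hd => ?_, h8.2⟩
    have h9 := h8.1 p hp hd
    linarith
  exact ⟨(h3 x (by omega) y D hy hyx ((pow_le_pow_right₀ hl (le_max_right _ _)).trans hD) hDy _ hsub hR).1 h5,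
    h2 x (by omega) y D hy hyx ((pow_le_pow_right₀ hl (le_max_left _ _)).trans hD) _ hsub hR⟩

/-- real end points -/
theorem real (θ : ℝ) (h1 : 7 / 15 < θ) (h2 : θ ≤ 1) (k : ℕ) (hk : 1 ≤ k) : ∃ c C : ℝ, 0 < c ∧ 0 < C ∧
    ∃ (B : ℕ) (x₀ : ℝ), ∀ x : ℝ, x₀ ≤ x → ∀ y : ℝ, x ^ θ ≤ y → y ≤ x / 2 → ∀ D : ℕ,
      Real.log x ^ B ≤ D → (D : ℝ) ≤ y / 2 → ∀ S : Finset ℕ,
      (∀ m : ℕ, m ∈ S ↔ (x < m ∧ (m : ℝ) < x + y) ∧ m ∈ R 5 ∧ m.primeFactorsList.length ≤ 3) →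
      c * (y * D / Real.log x ^ k) ≤ AP k D S ∧ (AP k D S : ℝ) ≤ C * (y * D / Real.log x ^ k) := by
  classical
  obtain ⟨c, C, hc, hC, B, X₀, h3⟩ := few 3 5 ((θ + 7 / 15) / 2) (by linarith) (by push_cast; linarith)
    (by push_cast; linarith) (by push_cast; linarith) k hk
  obtain ⟨x₀, hx₀, hreal⟩ := Pool.Agent.Y677.KU.real_int θ ((θ + 7 / 15) / 2) (by linarith)
    (by linarith) X₀
  refine ⟨c / 2, 2 ^ (k + 1) * C, by positivity, by positivity, B, x₀, ?_⟩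
  intro x hx y hy hyx D hD hDy S hS
  obtain ⟨a, y', g1, g2, g3, g4, g5, g6, g7, g8, g9⟩ := hreal x hx y hy hyx
  have hSA : S = A 3 5 a y' := by
    ext m
    have h4 := g9 m
    unfold Pool.Agent.Y677.KU.RI at h4
    rw [Set.mem_ofPred_eq] at h4
    unfold A
    rw [hS, mem_filter, mem_Ioc, h4]
  have hla : 0 < Real.log a := by linarith
  have hlx : 0 < Real.log x := by linarith
  have hx0 : 0 < x := by linarith
  have hy0 : 0 < y := lt_of_lt_of_le (Real.rpow_pos_of_pos hx0 θ) hy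
  have hDy' : D ≤ y' := by
    have : (D : ℝ) ≤ y' := hDy.trans g4
    exact_mod_cast this
  have hDa : Real.log a ^ B ≤ D := (pow_le_pow_left₀ hla.le g6 B).trans hD
  obtain ⟨h5, h6⟩ := h3 a g1 y' D g2 g3 hDa hDy'
  rw [hSA]
  have hD0 : (0 : ℝ) ≤ D := Nat.cast_nonneg _
  have e1 : Real.log a ^ k ≤ Real.log x ^ k := pow_le_pow_left₀ hla.le g6 k
  have e2 : Real.log x ^ k ≤ 2 ^ k * Real.log a ^ k := by
    rw [← mul_pow]
    exact pow_le_pow_left₀ hlx.le g7 k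
  have e3 : 0 < Real.log a ^ k := by positivity
  have e4 : 0 < Real.log x ^ k := by positivity
  constructor
  · refine le_trans ?_ h5
    calc c / 2 * (y * D / Real.log x ^ k) = c * ((y / 2) * D / Real.log x ^ k) := by ring
      _ ≤ c * (y' * D / Real.log a ^ k) := by gcongr
  · refine h6.trans ?_
    have e5 : (y' : ℝ) * D / Real.log a ^ k ≤ 2 ^ (k + 1) * (y * D / Real.log x ^ k) := by
      rw [div_le_iff₀ e3]
      have e6 : 1 ≤ 2 ^ k * Real.log a ^ k / Real.log x ^ k := by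
        rw [le_div_iff₀ e4, one_mul]
        exact e2
      calc (y' : ℝ) * D ≤ (2 * y) * D := by gcongr
        _ = (2 * y * D) * 1 := by ring
        _ ≤ (2 * y * D) * (2 ^ k * Real.log a ^ k / Real.log x ^ k) :=
            mul_le_mul_of_nonneg_left e6 (by positivity)
        _ = 2 ^ (k + 1) * (y * D / Real.log x ^ k) * Real.log a ^ k := by
            rw [pow_succ]
            ring
    calc C * ((y' : ℝ) * D / Real.log a ^ k) ≤ C * (2 ^ (k + 1) * (y * D / Real.log x ^ k)) :=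
          mul_le_mul_of_nonneg_left e5 hC.le
      _ = 2 ^ (k + 1) * C * (y * D / Real.log x ^ k) := by ring

/-- families -/
theorem order (k : ℕ) (hk : 1 ≤ k) {θ : ℝ} (hθ : 0 < θ) (M : Set (ℕ × ℕ))
    (hM : ∀ q ∈ M, (q.1 : ℝ) ^ θ ≤ q.2 ∧ q.2 ≤ q.1) :
    ((∃ c : ℝ, 0 < c ∧ ∃ X₀ : ℕ, ∀ q ∈ M, X₀ ≤ q.1 →
        c * (q.2 / Real.log q.1) ≤ (P q.1 q.2).card) ↔
      ∃ c C : ℝ, 0 < c ∧ 0 < C ∧ ∃ B X₀ : ℕ, ∀ q ∈ M, X₀ ≤ q.1 → ∀ D : ℕ, Real.log q.1 ^ B ≤ D →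
        D ≤ q.2 → c * (q.2 * D / Real.log q.1 ^ k) ≤ AP k D (P q.1 q.2) ∧
          (AP k D (P q.1 q.2) : ℝ) ≤ C * (q.2 * D / Real.log q.1 ^ k)) ∧
    ((∃ c : ℝ, 0 < c ∧ ∃ X₀ : ℕ, ∀ q ∈ M, X₀ ≤ q.1 →
        c * (q.2 / Real.log q.1) ≤ (P q.1 q.2).card) ↔
      ∃ c : ℝ, 0 < c ∧ ∀ B : ℕ, ∃ X₀ : ℕ, ∀ q ∈ M, X₀ ≤ q.1 → ∃ D : ℕ, Real.log q.1 ^ B ≤ D ∧
        D ≤ q.2 ∧ c * (q.2 * D / Real.log q.1 ^ k) ≤ AP k D (P q.1 q.2)) := by
  classical
  obtain ⟨⟨C, hC, B', n₂, h2⟩, hdn⟩ := sets k 2 hk (by norm_num) hθ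
  have a1 : (∃ c : ℝ, 0 < c ∧ ∃ X₀ : ℕ, ∀ q ∈ M, X₀ ≤ q.1 →
        c * (q.2 / Real.log q.1) ≤ (P q.1 q.2).card) →
      ∃ c C : ℝ, 0 < c ∧ 0 < C ∧ ∃ B X₀ : ℕ, ∀ q ∈ M, X₀ ≤ q.1 → ∀ D : ℕ, Real.log q.1 ^ B ≤ D →
        D ≤ q.2 → c * (q.2 * D / Real.log q.1 ^ k) ≤ AP k D (P q.1 q.2) ∧
          (AP k D (P q.1 q.2) : ℝ) ≤ C * (q.2 * D / Real.log q.1 ^ k) := by
    rintro ⟨δ, hδ, n₀, h⟩
    obtain ⟨c, hc, B, n₁, h1⟩ := hdn δ hδ
    refine ⟨c, C, hc, hC, max B B', max (max n₀ 3) (max n₁ n₂), ?_⟩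
    intro q hq hx D hD hDx
    have hl := Pool.Agent.Y843.AC.log_one (show 3 ≤ q.1 by omega)
    exact ⟨(h1 q.1 (by omega) q.2 D (hM q hq).1 (hM q hq).2
        ((pow_le_pow_right₀ hl (le_max_left _ _)).trans hD) hDx _ (P_sub _ _) (P_R _ _)).1
        (h q hq (by omega)),
      h2 q.1 (by omega) q.2 D (hM q hq).1 (hM q hq).2
        ((pow_le_pow_right₀ hl (le_max_right _ _)).trans hD) _ (P_sub _ _) (P_R _ _)⟩
  have a2 : (∃ c C : ℝ, 0 < c ∧ 0 < C ∧ ∃ B X₀ : ℕ, ∀ q ∈ M, X₀ ≤ q.1 → ∀ D : ℕ,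
        Real.log q.1 ^ B ≤ D → D ≤ q.2 →
        c * (q.2 * D / Real.log q.1 ^ k) ≤ AP k D (P q.1 q.2) ∧
          (AP k D (P q.1 q.2) : ℝ) ≤ C * (q.2 * D / Real.log q.1 ^ k)) →
      ∃ c : ℝ, 0 < c ∧ ∀ B : ℕ, ∃ X₀ : ℕ, ∀ q ∈ M, X₀ ≤ q.1 → ∃ D : ℕ, Real.log q.1 ^ B ≤ D ∧
        D ≤ q.2 ∧ c * (q.2 * D / Real.log q.1 ^ k) ≤ AP k D (P q.1 q.2) := by
    rintro ⟨c, C, hc, _, B₀, n₀, h⟩
    refine ⟨c, hc, fun B => ?_⟩
    obtain ⟨n₁, h1⟩ := big B θ hθ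
    obtain ⟨n₂, h2⟩ := big B₀ θ hθ
    refine ⟨max n₀ (max n₁ n₂), ?_⟩
    intro q hq hx
    exact ⟨q.2, (h1 q.1 (by omega)).trans (hM q hq).1, le_rfl,
      (h q hq (by omega) q.2 ((h2 q.1 (by omega)).trans (hM q hq).1) le_rfl).1⟩
  have a3 : (∃ c : ℝ, 0 < c ∧ ∀ B : ℕ, ∃ X₀ : ℕ, ∀ q ∈ M, X₀ ≤ q.1 → ∃ D : ℕ, Real.log q.1 ^ B ≤ D ∧
        D ≤ q.2 ∧ c * (q.2 * D / Real.log q.1 ^ k) ≤ AP k D (P q.1 q.2)) →
      ∃ c : ℝ, 0 < c ∧ ∃ X₀ : ℕ, ∀ q ∈ M, X₀ ≤ q.1 →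
        c * (q.2 / Real.log q.1) ≤ (P q.1 q.2).card := by
    rintro ⟨δ, hδ, h⟩
    obtain ⟨c, hc, B, n₁, h1⟩ := hdn δ hδ
    obtain ⟨n₀, h0⟩ := h B
    refine ⟨c, hc, max n₀ n₁, ?_⟩
    intro q hq hx
    obtain ⟨D, hD, hDx, hE⟩ := h0 q hq ((le_max_left _ _).trans hx)
    exact (h1 q.1 ((le_max_right _ _).trans hx) q.2 D (hM q hq).1 (hM q hq).2 hD hDx _
      (P_sub _ _) (P_R _ _)).2 hE
  exact ⟨⟨a1, fun h => a3 (a2 h)⟩, ⟨fun h => a2 (a1 h), a3⟩⟩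

/-- **Progressions of numbers with at most three prime factors between `x` and `x + √x`.**
Let `k ≥ 1`; all progressions have `k` terms; `c, C > 0` and `B` are constants; `x`, `y` are integers in 2 and 3.

1. Let `7/15 < θ ≤ 1`. For all large REAL `x`, all real `y` with `x ^ θ ≤ y ≤ x / 2` (for instance `y = √x`)
  and all `D` between `log ^ B x` and `y / 2`: the number of the progressions with differences at most `D` of
  integers of the open interval `(x, x + y)` with at most three prime factors, all larger than the fifth root,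
  is between `c y D / log ^ k x` and `C y D / log ^ k x`.  The same (for integers `x`, `y`) for at most `r` prime
  factors, all larger than the `s`-th root, if `θ (3 r + 1) > 4`, `θ r - (r - 1) / s > 1`, `θ s > 2`; such
  `r`, `s` exist for every `θ > 0`.
2. Let `θ > 0` be arbitrary, `x ^ θ ≤ y ≤ x`, and let `S` be a set of primes in `(x, x + y]`, or, more generally,
  of integers `n` there without a prime factor `≤ n ^ (1/s)`. Uniformly in `y`, `S` and `D ≥ log ^ B x`: `S` has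
  at most `C y D / log ^ k x` progressions with differences at most `D`; if `D ≤ y`: it has at least
  `c y D / log ^ k x` if it has at least `δ y / log x` elements, and conversely it has at least `c y / log x`
  elements if it has at least `δ y D / log ^ k x` progressions; all its elements but `δ y / log x` lie in
  progressions in `S` with differences at most `log ^ B x`.
3. For every family `M` of pairs `(x, y)` with `x ^ θ ≤ y ≤ x`, for instance of all pairs `(x, ⌊√x⌋)`: the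
  number of the primes in `(x, x + y]` is `≫ y / log x` on `M` if and only if the number of the progressions of
  these primes with differences at most `D` is of the order `y D / log ^ k x` for all `D` between a power of
  `log x` and `y`; and if and only if (with one constant) it is `≫ y D / log ^ k x` for a single
  `D ≥ log ^ B x` for every pair of `M`, for every `B`. -/
theorem result :
    (∀ θ : ℝ, 7 / 15 < θ → θ ≤ 1 → ∀ k : ℕ, 1 ≤ k → ∃ c C : ℝ, 0 < c ∧ 0 < C ∧ ∃ (B : ℕ) (x₀ : ℝ),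
      ∀ x : ℝ, x₀ ≤ x → ∀ y : ℝ, x ^ θ ≤ y → y ≤ x / 2 → ∀ D : ℕ, Real.log x ^ B ≤ D →
      (D : ℝ) ≤ y / 2 → ∀ S : Finset ℕ,
      (∀ m : ℕ, m ∈ S ↔ (x < m ∧ (m : ℝ) < x + y) ∧ m ∈ R 5 ∧ m.primeFactorsList.length ≤ 3) →
        c * (y * D / Real.log x ^ k) ≤ AP k D S ∧ (AP k D S : ℝ) ≤ C * (y * D / Real.log x ^ k)) ∧
    (∀ (r s : ℕ) (θ : ℝ), θ ≤ 1 → 4 < θ * (3 * r + 1) → 1 < θ * r - (r - 1) / s → 2 < θ * s →
      ∀ k : ℕ, 1 ≤ k → ∃ c C : ℝ, 0 < c ∧ 0 < C ∧ ∃ B X₀ : ℕ, ∀ x : ℕ,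
      X₀ ≤ x → ∀ y D : ℕ, (x : ℝ) ^ θ ≤ y → y ≤ x → Real.log x ^ B ≤ D → D ≤ y →
        c * (y * D / Real.log x ^ k) ≤ AP k D (A r s x y) ∧
          (AP k D (A r s x y) : ℝ) ≤ C * (y * D / Real.log x ^ k)) ∧
    (∀ k s : ℕ, 1 ≤ k → 1 ≤ s → ∀ θ : ℝ, 0 < θ →
      (∃ C : ℝ, 0 < C ∧ ∃ B X₀ : ℕ, ∀ x : ℕ, X₀ ≤ x → ∀ y D : ℕ, (x : ℝ) ^ θ ≤ y → y ≤ x →
        Real.log x ^ B ≤ D → ∀ S : Finset ℕ, S ⊆ Ioc x (x + y) → (∀ n ∈ S, n ∈ R s) →
        (AP k D S : ℝ) ≤ C * (y * D / Real.log x ^ k)) ∧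
      ∀ δ : ℝ, 0 < δ →
        (∃ c : ℝ, 0 < c ∧ ∃ B X₀ : ℕ, ∀ x : ℕ, X₀ ≤ x → ∀ y D : ℕ,
          (x : ℝ) ^ θ ≤ y → y ≤ x → Real.log x ^ B ≤ D → D ≤ y → ∀ S : Finset ℕ,
          S ⊆ Ioc x (x + y) → (∀ n ∈ S, n ∈ R s) →
          (δ * (y / Real.log x) ≤ S.card → c * (y * D / Real.log x ^ k) ≤ (AP k D S : ℝ)) ∧
          (δ * (y * D / Real.log x ^ k) ≤ (AP k D S : ℝ) → c * (y / Real.log x) ≤ S.card)) ∧
        (∃ B X₀ : ℕ, ∀ x : ℕ, X₀ ≤ x → ∀ y : ℕ, (x : ℝ) ^ θ ≤ y → y ≤ x → ∀ S : Finset ℕ,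
          S ⊆ Ioc x (x + y) → (∀ n ∈ S, n ∈ R s) →
          ((outside k (Real.log x ^ B) S).card : ℝ) ≤ δ * (y / Real.log x))) ∧
    (∀ s n : ℕ, 2 ≤ s → n.Prime → n ∈ R s) ∧
    (∀ k : ℕ, 1 ≤ k → ∀ θ : ℝ, 0 < θ → ∀ M : Set (ℕ × ℕ),
      (∀ q ∈ M, (q.1 : ℝ) ^ θ ≤ q.2 ∧ q.2 ≤ q.1) →
      ((∃ c : ℝ, 0 < c ∧ ∃ X₀ : ℕ, ∀ q ∈ M, X₀ ≤ q.1 →
          c * (q.2 / Real.log q.1) ≤ (P q.1 q.2).card) ↔
        ∃ c C : ℝ, 0 < c ∧ 0 < C ∧ ∃ B X₀ : ℕ, ∀ q ∈ M, X₀ ≤ q.1 → ∀ D : ℕ, Real.log q.1 ^ B ≤ D →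
          D ≤ q.2 → c * (q.2 * D / Real.log q.1 ^ k) ≤ AP k D (P q.1 q.2) ∧
            (AP k D (P q.1 q.2) : ℝ) ≤ C * (q.2 * D / Real.log q.1 ^ k)) ∧
      ((∃ c : ℝ, 0 < c ∧ ∃ X₀ : ℕ, ∀ q ∈ M, X₀ ≤ q.1 →
          c * (q.2 / Real.log q.1) ≤ (P q.1 q.2).card) ↔
        ∃ c : ℝ, 0 < c ∧ ∀ B : ℕ, ∃ X₀ : ℕ, ∀ q ∈ M, X₀ ≤ q.1 → ∃ D : ℕ, Real.log q.1 ^ B ≤ D ∧
          D ≤ q.2 ∧ c * (q.2 * D / Real.log q.1 ^ k) ≤ AP k D (P q.1 q.2))) :=
  ⟨fun θ h1 h2 k hk => real θ h1 h2 k hk,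
    fun r s θ hθ g1 g2 g3 k hk => few r s θ hθ g1 g2 g3 k hk,
    fun k s hk hs _ hθ => ⟨(sets k s hk hs hθ).1, fun δ hδ =>
      ⟨(sets k s hk hs hθ).2 δ hδ, her k s hk hs hθ δ hδ⟩⟩, fun _ _ hs hn => prime_R hs hn,
    fun k hk _ hθ M hM => order k hk hθ M hM⟩

end Pool.Agent.Results.MP_b8a134_nt.ProgressionCounts
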