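import Pool.Agent.Y816.PD.UniJ

set_option autoImplicit false

/-!
# Almost primes with restricted digits between `x` and `x + √x`

For every large real `x` and every admissible `H` the `m` for which all `m + h`, `h ∈ H`, lie between `x` and
`x + √x`, and whose `i`-th digit in base `b` belongs to an arbitrary set `A i` for all `i < K`, are considered;
`K` is the integer part of `log_b (⌊√x⌋ / 3)`.
-/

namespace Pool.Agent.Results.MP_b8a134_nt.RestrictedDigits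

open Finset Filter
open Pool.Agent.Y816.PD (NA DC AT PT)

/-- The integers `m` with `x < m < x + √x`. -/
def Int (x : ℝ) : Set ℕ := {m | x < (m : ℝ) ∧ (m : ℝ) < x + √x}

/-- **Almost prime tuples with restricted digits between `x` and `x + √x`.** -/
theorem result (H : Finset ℕ) (hH : ∀ p : ℕ, p.Prime → ∃ m : ℕ, ∀ h ∈ H, ¬ p ∣ m + h) (k : ℕ)
    (hk : H.card = k) (hk1 : 1 ≤ k) :
    ∃ c : ℝ, 0 < c ∧ ∃ r₀ : ℕ, 2 ≤ r₀ ∧ ∀ r : ℕ, r₀ ≤ r → ∀ b : ℕ, 2 ≤ b → ∃ κ C : ℝ, 0 < κ ∧ 0 < C ∧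
      ∀ᶠ x : ℝ in atTop, ∀ K : ℕ, K = Nat.log b (⌊√x⌋₊ / 3) →
        ∀ A : ℕ → Finset ℕ, (∀ i < K, A i ⊆ range b) → (b : ℝ) ^ K ≤ Real.exp (c * K) * NA K A →
        ((∃ d ∈ A 0, ∀ h ∈ H, (d + h).Coprime b) →
          κ * NA K A / (K : ℝ) ^ k ≤ DC b K A (AT H (Int x) r (b ^ K))) ∧
        (DC b K A (PT H (Int x)) : ℝ) ≤ C * NA K A / (K : ℝ) ^ k := by
  have hsq : Tendsto (fun x : ℝ => ⌊√x⌋₊) atTop atTop :=
    tendsto_nat_floor_atTop.comp Real.tendsto_sqrt_atTop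
  apply Pool.Agent.Y816.PD.uni_fam atTop Int (fun x : ℝ => ⌊x⌋₊) (fun x : ℝ => ⌊√x⌋₊)
    (fun x : ℝ => ⌊√x⌋₊ + 2) 3 3 hsq _ _ _ _ H hH k hk hk1
  · filter_upwards [hsq.eventually_ge_atTop 1] with x hx
    constructor
    · omega
    · show ⌊√x⌋₊ + 2 ≤ 3 * ⌊√x⌋₊
      omega
  · filter_upwards [hsq.eventually_ge_atTop 3, eventually_ge_atTop 0] with x hx hx0
    show ⌊x⌋₊ ≤ ⌊√x⌋₊ ^ 3
    obtain ⟨s, hs⟩ : ∃ s, s = ⌊√x⌋₊ := ⟨_, rfl⟩
    have h1 : √x < (s : ℝ) + 1 := by rw [hs]; exact Nat.lt_floor_add_one _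
    rw [← hs] at hx ⊢
    have h2 : x < ((s : ℝ) + 1) ^ 2 := by
      rw [← Real.sqrt_lt' (by positivity)]
      exact h1
    have h3 : (⌊x⌋₊ : ℝ) < (((s + 1) ^ 2 : ℕ) : ℝ) := by
      push_cast
      exact lt_of_le_of_lt (Nat.floor_le hx0) h2
    have h4 : ⌊x⌋₊ < (s + 1) ^ 2 := by exact_mod_cast h3
    have h5 : (s + 1) ^ 2 ≤ s ^ 3 := by nlinarith [Nat.mul_le_mul hx hx, sq_nonneg s]
    omega
  · filter_upwards [eventually_ge_atTop 0] with x hx0 m h1 h2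
    have h3 : x < (m : ℝ) := (Nat.floor_lt hx0).1 h1
    refine ⟨h3, ?_⟩
    have h4 : (m : ℝ) < ((⌊x⌋₊ + ⌊√x⌋₊ : ℕ) : ℝ) := Nat.cast_lt.2 h2
    push_cast at h4
    have h5 := Nat.floor_le hx0
    have h6 := Nat.floor_le (Real.sqrt_nonneg x)
    linarith
  · filter_upwards [eventually_ge_atTop 0] with x hx0 m hm
    obtain ⟨h1, h2⟩ := hm
    refine ⟨(Nat.floor_lt hx0).2 h1, ?_⟩
    have h5 := Nat.lt_floor_add_one x
    have h6 := Nat.lt_floor_add_one (√x)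
    have h7 : (m : ℝ) < ((⌊x⌋₊ + (⌊√x⌋₊ + 2) : ℕ) : ℝ) := by
      push_cast
      linarith
    exact_mod_cast h7

end Pool.Agent.Results.MP_b8a134_nt.RestrictedDigits
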